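import Mathlib

set_option autoImplicit false

namespace Pool.Agent.Results.MP_e83c66_co.Counter

/-- Every simplicial endomorphism fixes a (nonempty) clique. -/
def FCP {V : Type} (G : SimpleGraph V) : Prop :=
  ∀ f : V → V, (∀ x y, G.Adj x y → f x = f y ∨ G.Adj (f x) (f y)) →
    ∃ C : Set V, C.Nonempty ∧ G.IsClique C ∧ f '' C = C

variable {V : Type} [DecidableEq V] (G : SimpleGraph V) [DecidableRel G.Adj] (L : List V)

def go : List V → List (V × V) → Bool
  | [], _ => false
  | v :: l, p => L.all fun w => p.any (fun q => G.Adj q.1 v && !(q.2 = w || G.Adj q.2 w)) ||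
      w = v || p.any (fun q => q.1 = w && G.Adj v w && (q.2 = v || G.Adj v q.2 && G.Adj w q.2 &&
        p.any fun r => r.1 = q.2 && r.2 = v)) || go l ((v, w) :: p)

lemma fcp (hL : ∀ v, v ∈ L) (h : go G L L [] = true) : FCP G := fun f hf => by
  suffices ∀ l p, (∀ q ∈ p, f q.1 = q.2) → go G L l p = true →
    ∃ C : Set V, C.Nonempty ∧ G.IsClique C ∧ f '' C = C from this L [] (by simp) h
  intro l
  induction l with
  | nil => simp [go]
  | cons v l ih =>
    intro p hp h
    have := List.all_eq_true.1 h (f v) (hL _)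
    simp only [Bool.or_eq_true, List.any_eq_true, Bool.and_eq_true, decide_eq_true_eq,
      Bool.not_eq_true', Bool.or_eq_false_iff, decide_eq_false_iff_not] at this
    rcases this with ((⟨q, m, a, b, c⟩ | e) | ⟨q, m, ⟨e, a⟩, b | ⟨⟨b, c⟩, r, m', d, e'⟩⟩) | k
    · rw [← hp q m] at b c
      exact ((hf _ _ a).elim b c).elim
    · exact ⟨{v}, by simp, by simp, by simp [e]⟩
    · have := hp q m
      rw [e, b] at this
      exact ⟨{v, f v}, by simp, by simp [a], by simp [Set.image_pair, this, Set.pair_comm]⟩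
    · have h1 := hp q m
      have h2 := hp r m'
      rw [e] at h1
      rw [d, e'] at h2
      refine ⟨{v, f v, q.2}, by simp, ?_, ?_⟩
      · simp [SimpleGraph.isClique_insert, a, b, c]
      · rw [Set.image_insert_eq, Set.image_pair, h1, h2]
        ext; simp; tauto
    · exact ih _ (by simpa using fun a b m => hp _ m) k

def H : SimpleGraph (Fin 9) where
  Adj a b := Nat.testBit 595604397171545991241960 (9 * a + b)
  symm := ⟨by decide +kernel⟩
  loopless := ⟨by decide +kernel⟩

instance : DecidableRel H.Adj := fun _ _ => inferInstanceAs (Decidable (_ = true))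

instance (s : Set (Fin 9)) : DecidableRel (H.induce s).Adj :=
  fun a b => inferInstanceAs (Decidable (H.Adj a.1 b.1))

/-- The link of `v` and `G - v` have the fixed clique property, but `G` does not. -/
theorem result : ∃ (n : ℕ) (G : SimpleGraph (Fin n)) (v : Fin n),
    FCP (G.induce (G.neighborSet v)) ∧ FCP (G.induce {v}ᶜ) ∧ ¬FCP G := by
  refine ⟨9, H, 2, fcp _ [⟨5, by decide⟩, ⟨6, by decide⟩, ⟨7, by decide⟩, ⟨8, by decide⟩]
    (by decide) (by decide +kernel), fcp _ [⟨1, by decide⟩, ⟨7, by decide⟩, ⟨5, by decide⟩,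
    ⟨8, by decide⟩, ⟨4, by decide⟩, ⟨6, by decide⟩, ⟨0, by decide⟩, ⟨3, by decide⟩]
    (by decide) (by decide +kernel), fun h => ?_⟩
  obtain ⟨C, a, b, c⟩ := h ![2, 3, 3, 5, 3, 6, 7, 8, 0] (by decide +kernel)
  lift C to Finset (Fin 9) using C.toFinite
  rw [← Finset.coe_image, Finset.coe_inj] at c
  rw [Finset.coe_nonempty] at a
  revert C
  decide +kernel

end Pool.Agent.Results.MP_e83c66_co.Counter
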